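import Pool.Agent.helper18.KU.Spec

set_option autoImplicit false

namespace Pool.Agent.KU

open Finset

noncomputable section

theorem MAIN (hS1 : S1_stmt) (hS2 : S2_stmt) (hS3 : S3_stmt) (hS4 : S4_stmt) (hS5 : S5_stmt)
    (hSPC : SPC_stmt) (hSPS : SPS_stmt) (hQIC : QIC_stmt) (hQIS : QIS_stmt) : MAIN_stmt := by
  intro V _ S
  induction hn : S.card using Nat.strong_induction_on generalizing S with
  | _ n ih =>
    intro X w hc
    have hIH : IH S := by
      intro S' X' w' hlt hc'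
      exact ih S'.card (hn ▸ hlt) S' rfl X' w' hc'
    have hlt1 : ∀ T ⊆ S, T ≠ S → T.card < S.card := fun T hT hne =>
      Finset.card_lt_card (hT.ssubset_of_ne hne)
    have hlt2 : ∀ T ⊆ S, T.Nonempty → (S \ T).card < S.card := by
      intro T hT hne
      apply Finset.card_lt_card
      refine Finset.sdiff_subset.ssubset_of_ne ?_
      intro he
      obtain ⟨x, hx⟩ := hne
      have hxs : x ∈ S \ T := by rw [he]; exact hT hx
      exact (Finset.mem_sdiff.1 hxs).2 hx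
    by_cases hle : S.card ≤ 1
    · exact hS1 V S X w hc hle
    by_cases ht : ∃ T ⊆ S, T.Nonempty ∧ T ≠ S ∧ f X w T = 0
    · obtain ⟨T, hTS, hTn, hTne, hf⟩ := ht
      obtain ⟨c1, c2⟩ := hSPC V S T X w hc hTS hf
      exact hSPS V S T X w hc.sy hTS (hIH T X w (hlt1 T hTS hTne) c1)
        (hIH (S \ T) _ w (hlt2 T hTS hTn) c2)
    have h1 : ∀ T ⊆ S, T.Nonempty → T ≠ S → 1 ≤ f X w T := by
      intro T hTS hTn hTne
      have h0 := hc.iv T hTS
      have hne : f X w T ≠ 0 := fun h => ht ⟨T, hTS, hTn, hTne, h⟩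
      omega
    by_cases hq : ∃ Q ⊆ S, Q.Nonempty ∧ Q ≠ S ∧ f X w Q = 1 ∧ f X w (S \ Q) = 1
    · obtain ⟨Q, hQS, hQn, hQne, hf1, hf2⟩ := hq
      obtain ⟨a, ha, b, hb, p, hp, q, hq', hw, c1, c2⟩ := hQIC V S Q X w hc h1 hQS hf1 hf2
      exact hQIS V S Q X w a b p q hc.sy hQS ha hb hp hq' hw
        (hIH Q _ w (hlt1 Q hQS hQne) c1) (hIH (S \ Q) _ w (hlt2 Q hQS hQn) c2)
    have hirr : Irr S X w := by
      intro T hTS hTn hTne
      exact ⟨h1 T hTS hTn hTne, fun h => hq ⟨T, hTS, hTn, hTne, h.1, h.2⟩⟩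
    have hne2 := hS2 V S X w hc hirr
    by_cases h3 : S.card = 3
    · exact hS3 V S X w hc hirr h3
    by_cases h4 : S.card = 4
    · exact hS4 V S X w hc hirr h4 hIH
    exact hS5 V S X w hc hirr (by omega) hIH

end

end Pool.Agent.KU
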